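import Pool.Agent.H22.FOT.Defs2
import Pool.Agent.H97.FOT.Gen

/-!
# FOG: sets of edges with a chordless cycle (CYA, CYF, CYL)
-/

set_option autoImplicit false

open MeasureTheory Set

namespace Pool.FOT.H50F

open Pool.FOT Pool.FOT.H97

theorem kap0 {Ω : Type} [MeasurableSpace Ω] {μ : Measure Ω} [IsProbabilityMeasure μ]
    {f : Ω → Ω → ℝ} {κ : ℝ} (hf : FOk μ f κ) : 0 ≤ κ := by
  obtain ⟨x⟩ : Nonempty Ω := μ.nonempty_of_neZero
  exact (integral_nonneg fun y => abs_nonneg _).trans (hf.row x)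

theorem cyT0 {Ω : Type} [MeasurableSpace Ω] (μ : Measure Ω) (f : Ω → Ω → ℝ) (r : ℕ) :
    0 ≤ cyT μ f r := integral_nonneg fun _ => sq_nonneg _

theorem edge_inj {V : Type} {n : ℕ} {c : Fin (n + 3) → V} (hc : Function.Injective c) :
    Function.Injective (fun i : Fin (n + 3) => s(c i, c (i + 1))) := by
  intro i j h
  have h' : s(c i, c (i + 1)) = s(c j, c (j + 1)) := h
  rw [Sym2.eq_iff] at h'
  rcases h' with ⟨h1, -⟩ | ⟨h1, h2⟩
  · exact hc h1
  · exfalso
    have e1 := hc h1
    have e2 := hc h2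
    rw [e1, add_assoc] at e2
    have e3 : (1 : Fin (n + 3)) + 1 = 0 := by
      have : j + (1 + 1) = j + 0 := by rw [e2, add_zero]
      exact add_left_cancel this
    have e4 := congrArg Fin.val e3
    rw [Fin.val_add, Fin.val_one, Fin.val_zero, Nat.mod_eq_of_lt (by omega)] at e4
    omega

/-- **Integrating along a chordless cycle** of a set of edges. -/
theorem cyc_fac (hV : CYVStmt) {V Ω : Type} [Fintype V] [MeasurableSpace Ω] (μ : Measure Ω)
    [IsProbabilityMeasure μ] (A : Finset (Sym2 V)) (f : Ω → Ω → ℝ) (κ : ℝ) (hf : FOk μ f κ)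
    {n : ℕ} {c : Fin (n + 3) → V} (hc : CycIn A n c) (hch : Chordless A n c) {M : ℝ}
    (hM : ∀ τ : Fin (n + 3) → Ω → ℝ, (∀ i, Measurable (τ i)) → (∀ i t, |τ i t| ≤ 1) →
      |cyc μ f n τ| ≤ M) (i₀ : Fin (n + 3)) (w : Ω → ℝ) (hw : Measurable w)
    (hw1 : ∀ t, |w t| ≤ 1) (F : Finset (Sym2 V)) (hF : ∀ e, e ∈ F ↔ e ∈ A ∧ ∀ i, c i ∉ e) :
    |∫ x : V → Ω, w (x (c i₀)) * ∏ e ∈ A, sVal f hf.symm x e ∂(Measure.pi fun _ => μ)| ≤
      M * ∫ x : V → Ω, |∏ e ∈ F, sVal f hf.symm x e| ∂(Measure.pi fun _ => μ) := by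
  classical
  obtain ⟨hci, hcA⟩ := hc
  obtain ⟨B, hB⟩ : ∃ B : Finset (Sym2 V), B = Finset.univ.image fun i => s(c i, c (i + 1)) :=
    ⟨_, rfl⟩
  have hBA : B ⊆ A := by
    rw [hB]
    intro e he
    obtain ⟨i, -, rfl⟩ := Finset.mem_image.1 he
    exact hcA i
  have hBm : ∀ e, e ∈ B ↔ ∃ i, s(c i, c (i + 1)) = e := by
    intro e
    rw [hB]
    simp
  obtain ⟨T, hT⟩ : ∃ T : Fin (n + 3) → Finset (Sym2 V),
      T = fun i => (A \ B).filter fun e => c i ∈ e := ⟨_, rfl⟩
  have hTm : ∀ i e, e ∈ T i ↔ (e ∈ A ∧ e ∉ B) ∧ c i ∈ e := by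
    intro i e
    rw [hT, Finset.mem_filter, Finset.mem_sdiff]
  -- at most one end on the cycle
  have hone : ∀ i j e, e ∈ T i → c j ∈ e → j = i := by
    intro i j e he hj
    obtain ⟨⟨hA, hnB⟩, hi⟩ := (hTm i e).1 he
    by_contra hne
    have h1 : e = s(c i, c j) := ((Sym2.mem_and_mem_iff (fun h => hne (hci h).symm)).1 ⟨hi, hj⟩)
    rw [h1] at hA hnB
    rcases hch i j hA with h | h
    · exact hnB ((hBm _).2 ⟨i, by rw [h]⟩)
    · exact hnB ((hBm _).2 ⟨j, by rw [h]; exact Sym2.eq_swap⟩)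
  obtain ⟨G, hG⟩ : ∃ G : Fin (n + 3) → (V → Ω) → ℝ, G = fun i x =>
      (if i = i₀ then w (x (c i)) else 1) * ∏ e ∈ T i, sVal f hf.symm x e := ⟨_, rfl⟩
  obtain ⟨R, hR⟩ : ∃ R : (V → Ω) → ℝ, R = fun x => ∏ e ∈ F, sVal f hf.symm x e := ⟨_, rfl⟩
  have hGe : ∀ i x, G i x = (if i = i₀ then w (x (c i)) else 1) *
      ∏ e ∈ T i, sVal f hf.symm x e := fun i x => by rw [hG]
  have hRe : ∀ x, R x = ∏ e ∈ F, sVal f hf.symm x e := fun x => by rw [hR]
  have key := hV V Ω μ f hf.meas hf.bdd n c hci M hM G R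
    (fun i => by
      rw [hG]
      refine Measurable.mul ?_ (prod_meas hf.symm hf.meas _)
      by_cases h : i = i₀
      · simp only [if_pos h]
        exact hw.comp (measurable_pi_apply _)
      · simp only [if_neg h]
        exact measurable_const)
    (by rw [hR]; exact prod_meas hf.symm hf.meas _)
    (fun i x => by
      rw [hGe, abs_mul]
      have h1 : |(if i = i₀ then w (x (c i)) else 1)| ≤ 1 := by
        split_ifs
        · exact hw1 _
        · rw [abs_one]
      exact mul_le_one₀ h1 (abs_nonneg _) (prod_abs hf.symm hf.bdd x _))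
    (fun x => by rw [hRe]; exact prod_abs hf.symm hf.bdd x _)
    (fun i j hij x t => by
      rw [hGe, hGe, Function.update_of_ne (fun h => hij (hci h).symm)]
      congr 1
      refine Finset.prod_congr rfl fun e he => ?_
      exact sVal_update hf.symm x (c j) t e fun hj => hij (hone i j e he hj))
    (fun j x t => by
      rw [hRe, hRe]
      refine Finset.prod_congr rfl fun e he => ?_
      exact sVal_update hf.symm x (c j) t e (((hF e).1 he).2 j))
  have hprod : ∀ x : V → Ω, w (x (c i₀)) * ∏ e ∈ A, sVal f hf.symm x e =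
      R x * ∏ i, (G i x * f (x (c i)) (x (c (i + 1)))) := by
    intro x
    have e1 : ∏ i, f (x (c i)) (x (c (i + 1))) = ∏ e ∈ B, sVal f hf.symm x e := by
      rw [hB, Finset.prod_image (fun i _ j _ h => edge_inj hci h)]
      rfl
    have e2 : ∏ i, (if i = i₀ then w (x (c i)) else 1) = w (x (c i₀)) := by
      rw [Finset.prod_ite_eq' Finset.univ i₀ (fun i => w (x (c i)))]
      simp
    have e3 : ∏ i, ∏ e ∈ T i, sVal f hf.symm x e =
        ∏ e ∈ Finset.univ.biUnion T, sVal f hf.symm x e := by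
      rw [Finset.prod_biUnion]
      intro i _ j _ hij
      rw [Function.onFun, Finset.disjoint_left]
      intro e he he'
      exact hij (hone j i e he' ((hTm i e).1 he).2)
    have e4 : ∏ e ∈ A, sVal f hf.symm x e =
        (∏ e ∈ B, sVal f hf.symm x e) * ((∏ e ∈ Finset.univ.biUnion T, sVal f hf.symm x e) *
          ∏ e ∈ F, sVal f hf.symm x e) := by
      rw [← Finset.prod_sdiff hBA, mul_comm]
      congr 1
      rw [← Finset.prod_union]
      · refine Finset.prod_congr ?_ fun _ _ => rfl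
        ext e
        rw [Finset.mem_sdiff, Finset.mem_union, Finset.mem_biUnion, hF]
        constructor
        · rintro ⟨hA, hnB⟩
          by_cases h : ∃ i, c i ∈ e
          · obtain ⟨i, hi⟩ := h
            exact Or.inl ⟨i, Finset.mem_univ _, (hTm i e).2 ⟨⟨hA, hnB⟩, hi⟩⟩
          · push Not at h
            exact Or.inr ⟨hA, h⟩
        · rintro (⟨i, -, hi⟩ | ⟨hA, h⟩)
          · exact ((hTm i e).1 hi).1
          · refine ⟨hA, fun hB' => ?_⟩
            obtain ⟨i, rfl⟩ := (hBm e).1 hB'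
            exact h i (Sym2.mem_mk_left _ _)
      · rw [Finset.disjoint_left]
        intro e he he'
        obtain ⟨i, -, hi⟩ := Finset.mem_biUnion.1 he
        exact ((hF e).1 he').2 i ((hTm i e).1 hi).2
    rw [e4, hRe, Finset.prod_mul_distrib, e1]
    simp only [hGe]
    rw [Finset.prod_mul_distrib, e2, e3]
    ring
  simp only [hprod]
  refine key.trans (le_of_eq ?_)
  simp only [hRe]

end Pool.FOT.H50F

namespace Pool.FOT

open Pool.FOT.H97 Pool.FOT.H50F

/-- a long chordless cycle -/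
theorem t_cya (hV : CYVStmt) (hB : CYBStmt) : CYAStmt := by
  classical
  intro V Ω _ _ μ _ A f κ hf _ r n c hr hrn hc hch
  have hκ := kap0 hf
  have hT := cyT0 μ f r
  have h := cyc_fac hV μ A f κ hf hc hch
    (fun τ h1 h2 => hB Ω μ f κ hf.symm hf.meas hf.bdd hf.row n r hr hrn.le τ h1 h2) 0
    (fun _ => 1) measurable_const (fun _ => by rw [abs_one])
    (A.filter fun e => ∀ i, c i ∉ e) (fun e => Finset.mem_filter)
  simp only [one_mul] at h
  refine h.trans ?_
  have h1 : ∫ x : V → Ω, |∏ e ∈ A.filter fun e => ∀ i, c i ∉ e, sVal f hf.symm x e|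
      ∂(Measure.pi fun _ => μ) ≤ 1 := by
    have h2 : ∫ x : V → Ω, |∏ e ∈ A.filter fun e => ∀ i, c i ∉ e, sVal f hf.symm x e|
      ∂(Measure.pi fun _ => μ) ≤ ∫ _x : V → Ω, (1 : ℝ) ∂(Measure.pi fun _ => μ) :=
      integral_mono_of_nonneg (Filter.Eventually.of_forall fun x => abs_nonneg _)
        (integrable_const _)
        (Filter.Eventually.of_forall fun x => prod_abs hf.symm hf.bdd x _)
    simpa using h2
  have h3 : κ ^ (n + 3 - 2 * r) ≤ κ := by
    have : κ ^ (n + 3 - 2 * r) ≤ κ ^ 1 := pow_le_pow_of_le_one hκ hf.le (by omega)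
    rwa [pow_one] at this
  have h4 : 0 ≤ κ ^ (n + 3 - 2 * r) * cyT μ f r := mul_nonneg (pow_nonneg hκ _) hT
  calc _ ≤ κ ^ (n + 3 - 2 * r) * cyT μ f r * 1 := mul_le_mul_of_nonneg_left h1 h4
    _ = κ ^ (n + 3 - 2 * r) * cyT μ f r := mul_one _
    _ ≤ κ * cyT μ f r := mul_le_mul_of_nonneg_right h3 hT

/-- an edge away from the cycle -/
theorem t_cyf (hV : CYVStmt) (hB : CYBStmt) (hE : EVPStmt) : CYFStmt := by
  classical
  intro V Ω _ _ μ _ A f κ hf hd r n c hr hrn hc hch a b ha hb hab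
  have hκ := kap0 hf
  have hT := cyT0 μ f r
  have hne : a ≠ b := by simpa using hd _ hab
  have h := cyc_fac hV μ A f κ hf hc hch
    (fun τ h1 h2 => hB Ω μ f κ hf.symm hf.meas hf.bdd hf.row n r hr hrn.le τ h1 h2) 0
    (fun _ => 1) measurable_const (fun _ => by rw [abs_one])
    (A.filter fun e => ∀ i, c i ∉ e) (fun e => Finset.mem_filter)
  simp only [one_mul] at h
  refine h.trans ?_
  have hz0 : κ ^ (n + 3 - 2 * r) = 1 := by rw [hrn, Nat.sub_self, pow_zero]
  rw [hz0, one_mul, mul_comm]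
  refine mul_le_mul_of_nonneg_right ?_ hT
  have hmem : ({s(a, b)} : Finset (Sym2 V)) ⊆ A.filter fun e => ∀ i, c i ∉ e := by
    intro e he
    rw [Finset.mem_singleton] at he
    subst he
    refine Finset.mem_filter.2 ⟨hab, fun i hi => ?_⟩
    rw [Sym2.mem_iff] at hi
    rcases hi with hi | hi
    · exact ha ⟨i, hi⟩
    · exact hb ⟨i, hi⟩
  have hE1 := hE V Ω μ a b hne
  have hma : Measurable fun z : Ω × Ω => |f z.1 z.2| := hf.meas.abs
  have h2 : ∫ x : V → Ω, |∏ e ∈ A.filter fun e => ∀ i, c i ∉ e, sVal f hf.symm x e|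
      ∂(Measure.pi fun _ => μ) ≤ ∫ x : V → Ω, |f (x a) (x b)| ∂(Measure.pi fun _ => μ) := by
    refine integral_mono_of_nonneg (Filter.Eventually.of_forall fun x => abs_nonneg _) ?_
      (Filter.Eventually.of_forall fun x => ?_)
    · exact intb (hma.comp hE1.measurable) (C := 1) fun x => by
        show |(|f (x a) (x b)|)| ≤ 1
        rw [abs_abs]
        exact hf.bdd _ _
    · refine (prod_abs_mono hf.symm hf.bdd x hmem).trans ?_
      rw [Finset.prod_singleton, sVal_mk]
  refine h2.trans ?_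
  have e1 : ∫ x : V → Ω, |f (x a) (x b)| ∂(Measure.pi fun _ => μ) =
      ∫ z : Ω × Ω, |f z.1 z.2| ∂(μ.prod μ) := by
    rw [← hE1.map_eq, integral_map hE1.measurable.aemeasurable hma.aestronglyMeasurable]
  rw [e1, integral_prod]
  · calc ∫ x, ∫ y, |f x y| ∂μ ∂μ ≤ ∫ _x, κ ∂μ := by
          refine integral_mono_of_nonneg (Filter.Eventually.of_forall fun x =>
            integral_nonneg fun y => abs_nonneg _) (integrable_const _)
            (Filter.Eventually.of_forall fun x => hf.row x)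
      _ = κ := by simp
  · exact intb hma (C := 1) fun z => by
      rw [abs_abs]
      exact hf.bdd _ _

/-- a pendant edge -/
theorem t_cyl (hV : CYVStmt) (hB : CYBStmt) (hU : UPDStmt) : CYLStmt := by
  classical
  intro V Ω _ _ μ _ A f κ hf hd r n c hr hrn hc hch i b hb hib hleaf
  have hκ := kap0 hf
  have hT := cyT0 μ f r
  have hcb : ∀ j, c j ≠ b := fun j h => hb ⟨j, h⟩
  have hU1 := hU V Ω μ b
  have hmeas := prod_meas hf.symm hf.meas A
  obtain ⟨A', hA'⟩ : ∃ A' : Finset (Sym2 V), A' = A.erase s(c i, b) := ⟨_, rfl⟩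
  obtain ⟨d, hd'⟩ : ∃ d : Ω → ℝ, ∀ t, d t = ∫ y, f t y ∂μ := ⟨fun t => ∫ y, f t y ∂μ, fun _ => rfl⟩
  have hdm : Measurable d := by
    have : d = fun t => ∫ y, f t y ∂μ := funext hd'
    rw [this]
    exact (hf.meas.stronglyMeasurable.integral_prod_right').measurable
  have hdb : ∀ t, |d t| ≤ κ := by
    intro t
    rw [hd']
    exact abs_integral_le_integral_abs.trans (hf.row t)
  have e0 : sDens μ A f hf.symm = ∫ x : V → Ω, d (x (c i)) *
      ∏ e ∈ A', sVal f hf.symm x e ∂(Measure.pi fun _ => μ) := by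
    unfold sDens
    rw [← hU1.map_eq, integral_map hU1.measurable.aemeasurable hmeas.aestronglyMeasurable,
      hU1.map_eq, integral_prod]
    · refine integral_congr_ae (Filter.Eventually.of_forall fun x => ?_)
      show ∫ t, ∏ e ∈ A, sVal f hf.symm (Function.update x b t) e ∂μ = _
      have : ∀ t, ∏ e ∈ A, sVal f hf.symm (Function.update x b t) e =
          f (x (c i)) t * ∏ e ∈ A', sVal f hf.symm x e := by
        intro t
        rw [← Finset.mul_prod_erase A _ hib, hA']
        congr 1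
        · rw [sVal_mk, Function.update_self, Function.update_of_ne (hcb i)]
        · refine Finset.prod_congr rfl fun e he => ?_
          refine sVal_update hf.symm x b t e fun hve => ?_
          exact (Finset.mem_erase.1 he).1 (hleaf e (Finset.mem_erase.1 he).2 hve)
      simp only [this]
      rw [integral_mul_const, hd']
    · exact intb (hmeas.comp hU1.measurable) (C := 1) fun z => prod_abs hf.symm hf.bdd _ A
  rcases hκ.eq_or_lt with h0 | h0
  · have hz : ∀ t, d t = 0 := fun t => by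
      have := hdb t
      rw [← h0] at this
      exact abs_eq_zero.1 (le_antisymm this (abs_nonneg _))
    rw [e0]
    simp only [hz, zero_mul, integral_zero, abs_zero]
    exact mul_nonneg hκ hT
  have hA'A : A' ⊆ A := by
    rw [hA']
    exact Finset.erase_subset _ _
  have hc' : CycIn A' n c := by
    refine ⟨hc.1, fun j => ?_⟩
    rw [hA', Finset.mem_erase]
    refine ⟨fun h => ?_, hc.2 j⟩
    have h1 : b ∈ s(c j, c (j + 1)) := by
      rw [h]
      exact Sym2.mem_mk_right _ _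
    rw [Sym2.mem_iff] at h1
    rcases h1 with h1 | h1
    · exact hcb _ h1.symm
    · exact hcb _ h1.symm
  have hch' : Chordless A' n c := fun j k h => hch j k (hA'A h)
  have h := cyc_fac hV μ A' f κ hf hc' hch'
    (fun τ h1 h2 => hB Ω μ f κ hf.symm hf.meas hf.bdd hf.row n r hr hrn.le τ h1 h2) i
    (fun t => d t / κ) (hdm.div_const _) (fun t => by
      rw [abs_div, abs_of_pos h0, div_le_one h0]
      exact hdb t)
    (A'.filter fun e => ∀ i, c i ∉ e) (fun e => Finset.mem_filter)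
  have hz0 : κ ^ (n + 3 - 2 * r) = 1 := by rw [hrn, Nat.sub_self, pow_zero]
  rw [hz0, one_mul] at h
  have h1 : ∫ x : V → Ω, |∏ e ∈ A'.filter fun e => ∀ i, c i ∉ e, sVal f hf.symm x e|
      ∂(Measure.pi fun _ => μ) ≤ 1 := by
    have h2 : ∫ x : V → Ω, |∏ e ∈ A'.filter fun e => ∀ i, c i ∉ e, sVal f hf.symm x e|
      ∂(Measure.pi fun _ => μ) ≤ ∫ _x : V → Ω, (1 : ℝ) ∂(Measure.pi fun _ => μ) :=
      integral_mono_of_nonneg (Filter.Eventually.of_forall fun x => abs_nonneg _)
        (integrable_const _)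
        (Filter.Eventually.of_forall fun x => prod_abs hf.symm hf.bdd x _)
    simpa using h2
  have h2 := h.trans (mul_le_mul_of_nonneg_left h1 hT)
  rw [mul_one] at h2
  have e1 : ∫ x : V → Ω, d (x (c i)) * ∏ e ∈ A', sVal f hf.symm x e ∂(Measure.pi fun _ => μ) =
      κ * ∫ x : V → Ω, d (x (c i)) / κ * ∏ e ∈ A', sVal f hf.symm x e
        ∂(Measure.pi fun _ => μ) := by
    rw [← integral_const_mul]
    refine integral_congr_ae (Filter.Eventually.of_forall fun x => ?_)
    show _ = κ * (d (x (c i)) / κ * _)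
    field_simp
  rw [e0, e1, abs_mul, abs_of_pos h0]
  exact mul_le_mul_of_nonneg_left h2 h0.le

end Pool.FOT
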